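import Pool.Agent.W483.FB.Stm

/-!
Part FB-7: relations between the generators and the state.
-/

open Finset Matrix

namespace Pool.Agent.W335.FB

open Pool.Agent.W483.FB

lemma complete' {Ω : Type} [Fintype Ω] [DecidableEq Ω] {w : Ω → Ω → ℝ} (h : Orth w)
    (x y : Ω) : ∑ c, w c x * w c y = if x = y then 1 else 0 := by
  have h1 : (Matrix.of w) * (Matrix.of w).transpose = 1 := by
    ext a b
    simp only [Matrix.mul_apply, Matrix.transpose_apply, Matrix.of_apply, Matrix.one_apply]
    exact h a b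
  have h2 : (Matrix.of w).transpose * (Matrix.of w) = 1 := mul_eq_one_comm.mp h1
  have h3 := congrFun (congrFun h2 x) y
  simp only [Matrix.mul_apply, Matrix.transpose_apply, Matrix.of_apply, Matrix.one_apply] at h3
  exact h3

/-- expansion in an orthonormal basis -/
lemma expand {Ω : Type} [Fintype Ω] [DecidableEq Ω] {w : Ω → Ω → ℝ} (h : Orth w)
    (x : Ω → ℝ) (i : Ω) : x i = ∑ t, (∑ l, w t l * x l) * w t i := by
  have h1 : ∑ t, (∑ l, w t l * x l) * w t i = ∑ l, x l * ∑ t, w t l * w t i := by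
    simp_rw [Finset.sum_mul, Finset.mul_sum]
    rw [Finset.sum_comm]
    refine Finset.sum_congr rfl fun l _ => Finset.sum_congr rfl fun t _ => by ring
  rw [h1]
  simp_rw [complete' h]
  simp

/-- matrices agreeing on an orthonormal basis are equal -/
lemma mat_ext {Ω : Type} [Fintype Ω] [DecidableEq Ω] {u : Ω → Ω → ℝ} (hu : Orth u)
    {M N : Matrix Ω Ω ℝ} (h : ∀ s, M.mulVec (u s) = N.mulVec (u s)) : M = N := by
  have key : ∀ (M : Matrix Ω Ω ℝ) (i j : Ω), M i j = ∑ s, (M.mulVec (u s)) i * u s j := by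
    intro M i j
    have h1 : ∑ s, (M.mulVec (u s)) i * u s j = ∑ k, M i k * ∑ s, u s k * u s j := by
      simp_rw [Matrix.mulVec, dotProduct, Finset.sum_mul, Finset.mul_sum]
      rw [Finset.sum_comm]
      refine Finset.sum_congr rfl fun l _ => Finset.sum_congr rfl fun t _ => by ring
    rw [h1]
    simp_rw [complete' hu]
    simp
  ext i j
  rw [key M, key N]
  simp_rw [h]

/-- the state acts on joint eigenvectors -/
lemma rho_eig {n : ℕ} {u : (Fin n → Bool) → (Fin n → Bool) → ℝ} (hu : Orth u)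
    (lam : (Fin n → Bool) → ℝ) (C : Fin n → Mat n) (hCt : ∀ j, (C j)ᵀ = C j)
    (hC : ∀ s j, (C j).mulVec (u s) = sg (s j) • u s) (r : Fin n → Bool)
    (x : (Fin n → Bool) → ℝ) (hx : ∀ j, (C j).mulVec x = sg (r j) • x) :
    (rhoM u lam).mulVec x = lam r • x := by
  have horth : ∀ t, t ≠ r → ∑ l, u t l * x l = 0 := by
    intro t ht
    obtain ⟨j, hj⟩ : ∃ j, t j ≠ r j := by
      by_contra hcon
      push Not at hcon
      exact ht (funext hcon)
    have h1 : (u t) ⬝ᵥ ((C j).mulVec x) = ((C j).mulVec (u t)) ⬝ᵥ x := by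
      rw [Matrix.dotProduct_mulVec, ← Matrix.mulVec_transpose, hCt]
    rw [hx, hC, dotProduct_smul, smul_dotProduct] at h1
    have h2 : u t ⬝ᵥ x = 0 := by
      simp only [smul_eq_mul] at h1
      have h3 : sg (r j) ≠ sg (t j) := by
        unfold sg
        rcases hb : t j <;> rcases hb' : r j <;> simp_all <;> norm_num
      have h4 : (sg (r j) - sg (t j)) * (u t ⬝ᵥ x) = 0 := by linarith
      rcases mul_eq_zero.1 h4 with h5 | h5
      · exact absurd (sub_eq_zero.1 h5) h3
      · exact h5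
    exact h2
  funext i
  have h1 : (rhoM u lam).mulVec x i = ∑ s, lam s * (∑ l, u s l * x l) * u s i := by
    simp only [rhoM, Matrix.mulVec, dotProduct, Matrix.sum_apply, Matrix.smul_apply,
      Matrix.vecMulVec_apply, smul_eq_mul, Finset.sum_mul, Finset.mul_sum]
    rw [Finset.sum_comm]
    refine Finset.sum_congr rfl fun l _ => Finset.sum_congr rfl fun t _ => by ring
  have h2 : x i = (∑ l, u r l * x l) * u r i := by
    refine (expand hu x i).trans (Finset.sum_eq_single r ?_ ?_)
    · intro t _ ht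
      rw [horth t ht, zero_mul]
    · intro h
      exact absurd (mem_univ r) h
  rw [h1, Pi.smul_apply, smul_eq_mul, h2, Finset.sum_eq_single r]
  · rw [mul_assoc]
  · intro t _ ht
    rw [horth t ht, mul_zero, zero_mul]
  · intro h
    exact absurd (mem_univ r) h

lemma pw_flp {n : ℕ} (nu : Fin n → ℝ) (s : Fin n → Bool) (j : Fin n) :
    pw nu s - pw nu (flp j s) = nu j * sg (s j) * (pw nu s + pw nu (flp j s)) := by
  classical
  unfold pw
  rw [← Finset.mul_prod_erase univ _ (mem_univ j), ← Finset.mul_prod_erase univ _ (mem_univ j)]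
  have h1 : ∏ k ∈ univ.erase j, (1 + nu k * sg (flp j s k)) / 2
      = ∏ k ∈ univ.erase j, (1 + nu k * sg (s k)) / 2 := by
    refine Finset.prod_congr rfl fun k hk => ?_
    rw [flp, Function.update_of_ne (Finset.ne_of_mem_erase hk)]
  rw [h1]
  have h2 : sg (flp j s j) = - sg (s j) := by
    rw [flp, Function.update_self]
    unfold sg
    rcases s j <;> simp
  have h3 : sg (s j) * sg (s j) = 1 := by
    unfold sg
    rcases s j <;> simp
  rw [h2]
  ring

lemma comb {n : ℕ} (A : Fin n → ℝ) (a : Fin n → Fin n → ℝ) (g : Fin n → Mat n) :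
    ∑ i, (∑ t, A t * a t i) • g i = ∑ t, A t • ∑ i, a t i • g i := by
  simp_rw [Finset.sum_smul, Finset.smul_sum, smul_smul]
  rw [Finset.sum_comm]

lemma sum_Bop {n : ℕ} (a : Fin n → Fin n → ℝ) (nu v : Fin n → ℝ) (g : Fin n → Mat n) :
    ∑ i, Bop a nu v i • g i = ∑ j, (nu j * ∑ l, a j l * v l) • ∑ i, a j i • g i :=
  comb (fun j => nu j * ∑ l, a j l * v l) a g

lemma sum_exp {n : ℕ} {a : Fin n → Fin n → ℝ} (ha : Orth a) (v : Fin n → ℝ)
    (g : Fin n → Mat n) :
    ∑ i, v i • g i = ∑ j, (∑ l, a j l * v l) • ∑ i, a j i • g i := by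
  rw [← comb (fun j => ∑ l, a j l * v l) a g]
  refine Finset.sum_congr rfl fun i _ => ?_
  rw [← expand ha v i]

theorem t_rel (hal : S_alg) : S_rel := by
  intro n c a u nu ha hu hC v
  set E : Fin n → Mat n := fun j => c.E (a j) with hE
  set F : Fin n → Mat n := fun j => c.F (a j) with hF
  set ρ := rhoM u (pw nu) with hρ
  have hEE : ∀ j k, j ≠ k → E j * E k = -(E k * E j) := by
    intro j k hjk
    have := (hal n c (a j) (a k)).1
    rw [ha j k, if_neg hjk] at this
    simp only [mul_zero, zero_smul] at this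
    exact eq_neg_of_add_eq_zero_left this
  have hE1 : ∀ j, E j * E j = 1 := by
    intro j
    have h1 := (hal n c (a j) (a j)).1
    rw [ha j j, if_pos rfl, mul_one, ← two_smul ℝ (c.E (a j) * c.E (a j))] at h1
    exact smul_right_injective _ (two_ne_zero (α := ℝ)) h1
  have hEF : ∀ j k, E j * F k = -(F k * E j) := by
    intro j k
    have := (hal n c (a j) (a k)).2.2.1
    exact eq_neg_of_add_eq_zero_left this
  have hEt : ∀ j, (E j)ᵀ = E j := fun j => (hal n c (a j) (a j)).2.2.2.1
  have hFt : ∀ j, (F j)ᵀ = -F j := fun j => (hal n c (a j) (a j)).2.2.2.2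
  have hCt : ∀ j, (E j * F j)ᵀ = E j * F j := by
    intro j
    rw [Matrix.transpose_mul, hEt, hFt, hEF]
    simp
  -- `E j` and the eigenvalues
  have hEC : ∀ j, (E j * F j) * E j = -(E j * (E j * F j)) := by
    intro j
    rw [mul_assoc, ← neg_eq_iff_eq_neg.2 (hEF j j), mul_neg]
  have hEC' : ∀ j k, j ≠ k → (E k * F k) * E j = E j * (E k * F k) := by
    intro j k hjk
    rw [mul_assoc, ← neg_eq_iff_eq_neg.2 (hEF j k), mul_neg, ← mul_assoc, ← mul_assoc,
      hEE j k hjk, neg_mul]
  have hsgf : ∀ (s : Fin n → Bool) (j : Fin n), sg (flp j s j) = - sg (s j) := by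
    intro s j
    rw [flp, Function.update_self]
    unfold sg
    rcases s j <;> simp
  have hsg : ∀ b, sg b * sg b = 1 := by
    intro b
    unfold sg
    rcases b <;> simp
  have hEu : ∀ j s k, (E k * F k).mulVec ((E j).mulVec (u s)) =
      sg (flp j s k) • (E j).mulVec (u s) := by
    intro j s k
    rw [Matrix.mulVec_mulVec]
    by_cases hjk : j = k
    · subst hjk
      rw [hEC, Matrix.neg_mulVec, ← Matrix.mulVec_mulVec, hC, Matrix.mulVec_smul, hsgf, neg_smul]
    · rw [hEC' j k hjk, ← Matrix.mulVec_mulVec, hC, Matrix.mulVec_smul, flp,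
        Function.update_of_ne (Ne.symm hjk)]
  have hρu : ∀ s, ρ.mulVec (u s) = pw nu s • u s := fun s =>
    rho_eig hu (pw nu) (fun j => E j * F j) hCt hC s (u s) (hC s)
  have hρE : ∀ j s, ρ.mulVec ((E j).mulVec (u s)) = pw nu (flp j s) • (E j).mulVec (u s) :=
    fun j s => rho_eig hu (pw nu) (fun j => E j * F j) hCt hC (flp j s) _ (hEu j s)
  have hFu : ∀ j s, (F j).mulVec (u s) = sg (s j) • (E j).mulVec (u s) := by
    intro j s
    have h1 : F j = E j * (E j * F j) := by rw [← mul_assoc, hE1, one_mul]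
    rw [h1, ← Matrix.mulVec_mulVec, hC, Matrix.mulVec_smul]
  have r1 : ∀ j, E j * ρ - ρ * E j = nu j • (F j * ρ + ρ * F j) := by
    intro j
    apply mat_ext hu
    intro s
    rw [Matrix.sub_mulVec, Matrix.smul_mulVec, Matrix.add_mulVec, ← Matrix.mulVec_mulVec,
      ← Matrix.mulVec_mulVec, ← Matrix.mulVec_mulVec, ← Matrix.mulVec_mulVec, hρu, hρE, hFu,
      Matrix.mulVec_smul, Matrix.mulVec_smul, Matrix.mulVec_smul, hFu, hρE, smul_smul, smul_smul,
      ← sub_smul, ← add_smul, smul_smul]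
    congr 1
    rw [pw_flp]
    ring
  have r2 : ∀ j, F j * ρ - ρ * F j = nu j • (E j * ρ + ρ * E j) := by
    intro j
    apply mat_ext hu
    intro s
    rw [Matrix.sub_mulVec, Matrix.smul_mulVec, Matrix.add_mulVec, ← Matrix.mulVec_mulVec,
      ← Matrix.mulVec_mulVec, ← Matrix.mulVec_mulVec, ← Matrix.mulVec_mulVec, hρu, hρE, hFu,
      Matrix.mulVec_smul, Matrix.mulVec_smul, Matrix.mulVec_smul, hFu, hρE, smul_smul, smul_smul,
      ← sub_smul, ← add_smul, smul_smul]
    congr 1
    have h1 := pw_flp nu s j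
    have h2 := hsg (s j)
    calc pw nu s * sg (s j) - sg (s j) * pw nu (flp j s)
        = sg (s j) * (pw nu s - pw nu (flp j s)) := by ring
      _ = (sg (s j) * sg (s j)) * nu j * (pw nu s + pw nu (flp j s)) := by rw [h1]; ring
      _ = nu j * (pw nu s + pw nu (flp j s)) := by rw [h2]; ring
  have eE : c.E v = ∑ j, (∑ l, a j l * v l) • E j := sum_exp ha v c.e
  have eF : c.F v = ∑ j, (∑ l, a j l * v l) • F j := sum_exp ha v c.f
  have bE : c.E (Bop a nu v) = ∑ j, (nu j * ∑ l, a j l * v l) • E j := sum_Bop a nu v c.e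
  have bF : c.F (Bop a nu v) = ∑ j, (nu j * ∑ l, a j l * v l) • F j := sum_Bop a nu v c.f
  constructor
  · rw [eE, bF, Finset.sum_mul, Finset.mul_sum, Finset.sum_mul, Finset.mul_sum,
      ← Finset.sum_sub_distrib, ← Finset.sum_add_distrib]
    refine Finset.sum_congr rfl fun j _ => ?_
    rw [smul_mul_assoc, mul_smul_comm, smul_mul_assoc, mul_smul_comm, ← smul_sub, ← smul_add, r1,
      smul_smul, mul_comm]
  · rw [eF, bE, Finset.sum_mul, Finset.mul_sum, Finset.sum_mul, Finset.mul_sum,
      ← Finset.sum_sub_distrib, ← Finset.sum_add_distrib]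
    refine Finset.sum_congr rfl fun j _ => ?_
    rw [smul_mul_assoc, mul_smul_comm, smul_mul_assoc, mul_smul_comm, ← smul_sub, ← smul_add, r2,
      smul_smul, mul_comm]

end Pool.Agent.W335.FB
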